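import Mathlib
import Pool.Agent.Run7.h530.TQ.ArrQ

/-!
# Lower semicontinuity of minimal log discrepancies, for finite quotients of varieties with a torus
action of complexity one

`(X, B)`: a pair, `X` a normal affine variety, `B` an effective `ℝ`-divisor, `K_X + B` is `ℝ`-Cartier.
`G`: a finite group of automorphisms of `X`. `(Z, B_Z)` is the quotient of `(X, B)` by `G` (`IsQuot`):
the coordinate ring of `Z` consists of the invariants of `G`, and `K_X + B` is the pull-back of
`K_Z + B_Z`. Let `x` be a closed point of `X` and `z` its image. We assume that for every single
element `σ` of `G` which fixes `x`, the quotient of `(X, B)` by the cyclic group generated by `σ` is, at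
the image of `x`, étale locally a general arrangement variety of klt type with an invariant boundary
(`CycArr`, `IsArrIn`): an affine variety of dimension `c + n` with an attractive fixed point and with the
action of a torus of dimension `n`, of any complexity `c ≥ 1`, such that the rational quotient is `ℙ^c`
and the critical divisor is contained in a union of hyperplanes in general position. Finally,
`(W, B_W)` is any pair which is étale locally isomorphic to `(Z, B_Z)` at the closed points `w` and `z`
(`IsArrQuot`, `Common`).

Theorem: the function `mld (W, B_W)` on the closed points of `W` is lower semicontinuous at `w`.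

For the trivial group this is the starting result `ArrangementSingularities`. The quotient by `G` itself
has in general no action of a torus. Example (this is not part of the Lean file): let a connected linear
algebraic group `H` act on a normal affine variety `X` of klt type, such that its maximal tori act with
complexity one or zero, and let `G` be any finite subgroup of `H`, for instance `H = SL_3 × ℂˣ` and `X`
the affine cone over the variety of complete flags in `ℂ³`, in any equivariant embedding. Every
element `σ` of `G` is contained in a maximal torus of `H`, which acts on the quotient of `X` by `σ`; by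
Luna's slice theorem all closed points of this quotient satisfy the assumption (see the starting
result). So `mld` is lower semicontinuous on the quotient of `(X, B)` by `G`, for all `H`-invariant
boundaries `B`. Different elements of `G` lie in different tori, and no torus acts on the quotient of
`X` by `G` if `G` is not abelian, in general.

Proof: the lower semicontinuity of `mld` for finite quotients of any pair can be reduced to cyclic
groups (`nx_of_cyc`, `IsQuot.lsc_of_nx`): by the Hurwitz formula for divisors over `X`, `mld` at `z` is
the infimum of `a (v, X, B) / r (v)` over the divisors `v` over `X` with the centre `x`, where `r (v)` is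
the order of the inertia group; this group is cyclic, and is contained in the stabilizer of `x`.

The definitions are in `Pool.Agent.Run7.h530.TQ.QDefs` (`LiesOver`, `IsQuot`), `TQ.ArrQ` (`IsArrIn`,
`CycArr`, `IsArrQuot`), and in `Helper58K9.ET.Defs` (`Etale`, `Etale.im`, `OverPt`, `Ext`, `ordE`,
`Common`), `Helper58K9.AR.Defs` (`Fan`, `ArrGerm`, `IsEq`, `KltType`), `Helper58K9.AR.Mld` (`mld`),
`H436R3.Fol.Defs`, `H436R3.KT.Defs`, `W497.Mld.Defs` (valuations, `Foliation`, `IsCanOrd`, `AffVar`,
`IsNormal`, `Pt`, `EffDiv`, `LocEq`, `IsOverGerm`, `IsLogDisc`, `CoeffIn`), `Q47.TV.Loc` (`FixesPt`).
-/

set_option autoImplicit false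

namespace Pool.Agent.Results.MP_f23696_ag.ArrangementQuotients

open Pool.Agent.H436R3.KT Pool.Agent.W497.Mld Pool.Agent.Helper58K9.AR Run7.h530.TQ

/-- **Lower semicontinuity of minimal log discrepancies** at the closed point `w` of the pair
`(W, B_W)`, if `(W, B_W)` is étale locally at `w` the quotient of a pair `(X, B)` by a finite group `G`,
such that the quotients of `(X, B)` by the elements of the stabilizer of a point over `w` are étale
locally general arrangement varieties of klt type. -/
theorem result {K : Type} [Field K] [Algebra ℂ K] (W : AffVar K) (B : EffDiv W)
    (E : ∀ w : Pt W, LocEq B w) (w : Pt W) (d : ℕ) (hw : IsArrQuot d Set.univ E w) :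
    ∃ f : W.R, w f ≠ 0 ∧ ∀ w' : Pt W, w' f ≠ 0 → mld (E w) ≤ mld (E w') :=
  arrQuot_lsc hw

end Pool.Agent.Results.MP_f23696_ag.ArrangementQuotients
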