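import Mathlib
import Pool.Agent.Run7.h530.TQ.Ex

/-!
# Lower semicontinuity of minimal log discrepancies, for finite quotients of toroidal pairs

`(X, B)`: a pair, `X` a normal affine variety, `B` an effective `ℝ`-divisor, `K_X + B` is `ℝ`-Cartier,
with local equations `E x` at the closed points `x`. `G`: a finite group of automorphisms of `X`, of any
kind: it need not be abelian, linear or small. `(Z, B_Z)` is the quotient of `(X, B)` by `G`
(`IsQuot`): the coordinate ring of `Z` consists of the invariants of `G` in the coordinate ring of `X`,
and `K_X + B` is the pull-back of `K_Z + B_Z`. (If `B = 0` and `G` acts freely in codimension one then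
`B_Z = 0`. In general `B_Z` contains the branch divisor.)

Let `x` be a closed point of `X`, and `z` its image. We assume that for every single element `σ` of `G`
which fixes `x`, the pair `(X, B)` has an étale toric chart at `x` for `σ` (`EChart`): an affine variety
`U` with an automorphism `ρ` and a fixed closed point `u` over `x`, étale morphisms `U → X` and `U → Y`
to an affine toric variety `Y`, such that `ρ` lies over `σ` and over a monomial automorphism `τ` of `Y`,
and a torus invariant boundary `B'` on `Y`, such that the pull-backs to `U` of `K_X + B` and `K_Y + B'`
agree. `Y` is the affine toric variety of any strictly convex rational cone; `K_Y` need not be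
`ℚ`-Cartier. The charts for different elements of `G` are not related.

Finally, `(W, B_W)` is any pair which is étale locally isomorphic to `(Z, B_Z)` at the closed points `w`
and `z` (`IsTorQuot`, `Common`). The minimal log discrepancies are the ones of `(W, B_W)`, defined by
all prime divisors over `W`.

Theorem: the function `mld (W, B_W)` on the closed points of `W` is lower semicontinuous at `w`: there
is an open neighbourhood of `w` with `mld_w' (W, B_W) ≥ mld_w (W, B_W)` for all its closed points `w'`.
So it is lower semicontinuous on `W` if the assumption holds for all closed points `w`.

By averaging (this is not part of the Lean file) the charts exist for all toroidal pairs `(X, D)` with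
an action of a finite group `G` which preserves the toroidal boundary `D`, for all `G`-invariant
boundaries `B` supported on `D`: let `P` be the group of the Cartier divisors supported on `D` at `x`;
the local equations can be chosen étale locally such that `σ` permutes them up to constants, since the
obstruction is in the first cohomology of a finite group with coefficients in a rational vector space
(the units with the value `1` at `x`), and the other coordinates can be chosen to be eigenfunctions
of `σ`. In the Lean file it is proven (`torQuot_of_mono`) that the quotients of toric pairs by finite
groups of monomial automorphisms belong to the class.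

Proof: the minimal log discrepancy at `z` is the infimum of `a (v, X, B) / r (v)` over the divisors `v`
over `X` with the centre `x`, `r (v)` the order of the inertia group (`hurwitz`, `ram`), which is cyclic.
A divisor `v` with the centre at a point `x'` near `x` and a generator `σ` of its inertia group fix `x'`,
and `x`; pass to the chart of `σ`. On the toric variety `Y` there is for every divisor over the image
of `x'`, of the inertia order `r`, a divisor over the image of `x` which is not worse. The latter
divisor is again moved to `X`.

The definitions are in `Pool.Agent.Run7.h530.TQ.Defs` (`FixU`, `EChart`), `TQ.QDefs` (`LiesOver`,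
`IsQuot`), `TQ.Fin` (`IsTorQuot`), and in `Helper58K9.ET.Defs` (`Etale`, `Etale.im`, `OverPt`, `Ext`,
`ordE`, `Common`), `Helper58K9.AR.Mld` (`mld`), `H436R3.Fol.Defs`, `H436R3.KT.Defs`, `W497.Mld.Defs`
(valuations, `Foliation`, `IsCanOrd`, `AffVar`, `IsNormal`, `Pt`, `EffDiv`, `LocEq`, `IsOverGerm`,
`IsLogDisc`, `CoeffIn`), `Q47.TV.Germ` (`TorAff`), `Q47.TV.Loc` (`FixesPt`), `Q47.QM.Mono` (`IsMono`).
-/

set_option autoImplicit false

namespace Pool.Agent.Results.MP_f23696_ag.ToroidalQuotients

open Pool.Agent.H436R3.KT Pool.Agent.W497.Mld Pool.Agent.Helper58K9.AR Run7.h530.TQ

/-- **Lower semicontinuity of minimal log discrepancies** at the closed point `w` of the pair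
`(W, B_W)`, if `(W, B_W)` is étale locally at `w` the quotient of a toroidal pair by a finite group. -/
theorem result {K : Type} [Field K] [Algebra ℂ K] (W : AffVar K) (B : EffDiv W)
    (E : ∀ w : Pt W, LocEq B w) (w : Pt W) (n : ℕ) (hw : IsTorQuot n Set.univ E w) :
    ∃ f : W.R, w f ≠ 0 ∧ ∀ w' : Pt W, w' f ≠ 0 → mld (E w) ≤ mld (E w') :=
  torQuot_lsc hw

end Pool.Agent.Results.MP_f23696_ag.ToroidalQuotients
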